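import Pool.Agent.Helper30.SY.St

/-!
# Project SY (MP_2d701a_co), module NAP: the nibble applied
-/

set_option autoImplicit false

namespace Pool.Agent.Helper86.SY

open Finset Pool.Agent.Helper30.SY Pool.Agent.Helper93.IA

section

variable {n : ℕ} {s : Fin n → Fin n → ℤ} {X : Fin n → Fin n → Fin n → ℝ} {L θ : ℝ}

private theorem fl_eq (h : SFill s X L θ) (u v : Fin n) : fl X u v = 3 * ∑ w, X u v w := by
  unfold fl
  rw [Finset.mul_sum]
  refine Finset.sum_congr rfl fun w _ => ?_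
  rw [h.cy w u v, h.cy v w u, h.cy w u v]
  ring

private theorem fl_nn (h : SFill s X L θ) (u v : Fin n) : 0 ≤ fl X u v := by
  rw [fl_eq h]
  exact mul_nonneg (by norm_num) (Finset.sum_nonneg fun w _ => h.nn u v w)

private theorem fl_ge (h : SFill s X L θ) (hn : 3 ≤ n) (hθ : 0 < θ) (u v : Fin n) (huv : u ≠ v) :
    θ ≤ fl X u v := by
  have hn0 : (0 : ℝ) < n := by
    have : 0 < n := by omega
    exact_mod_cast this
  have h1 : ∑ w ∈ (univ.erase u).erase v, θ / n ≤ ∑ w, X u v w := by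
    refine (Finset.sum_le_sum fun w hw => ?_).trans
      (Finset.sum_le_sum_of_subset_of_nonneg (Finset.subset_univ _) fun w _ _ => h.nn u v w)
    rw [Finset.mem_erase, Finset.mem_erase] at hw
    exact h.lb u v w huv hw.1.symm hw.2.1
  have hc : ((univ.erase u).erase v).card = n - 2 := by
    rw [Finset.card_erase_of_mem, Finset.card_erase_of_mem (Finset.mem_univ u), Finset.card_univ,
      Fintype.card_fin]
    · rfl
    · rw [Finset.mem_erase]
      exact ⟨huv.symm, Finset.mem_univ v⟩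
  rw [Finset.sum_const, hc, nsmul_eq_mul] at h1
  have hcast : ((n - 2 : ℕ) : ℝ) = (n : ℝ) - 2 := by
    rw [Nat.cast_sub (by omega)]
    norm_num
  rw [hcast] at h1
  have h3 : (3 : ℝ) ≤ n := by exact_mod_cast hn
  rw [fl_eq h]
  have h2 : θ ≤ 3 * (((n : ℝ) - 2) * (θ / n)) := by
    rw [show 3 * (((n : ℝ) - 2) * (θ / n)) = (3 * ((n : ℝ) - 2) * θ) / n by ring,
      le_div_iff₀ hn0]
    nlinarith
  linarith

private theorem wt_nn (h : SFill s X L θ) (a b c : Fin n) : 0 ≤ wt X a b c := by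
  unfold wt
  exact div_nonneg (mul_nonneg (by norm_num) (h.nn a b c))
    (mul_nonneg (mul_nonneg (fl_nn h a b) (fl_nn h b c)) (fl_nn h c a))

private theorem wt_le (h : SFill s X L θ) (hn : 3 ≤ n) (hθ : 0 < θ) (hL : 0 < L) (a b c : Fin n) :
    wt X a b c ≤ 27 * L / θ ^ 3 / n := by
  have hn0 : (0 : ℝ) < n := by
    have : 0 < n := by omega
    exact_mod_cast this
  by_cases hx : X a b c = 0
  · unfold wt
    rw [hx, mul_zero, zero_div]
    positivity
  · obtain ⟨h1, h2, h3⟩ := h.sp a b c hx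
    have e1 := fl_ge h hn hθ a b h1
    have e2 := fl_ge h hn hθ b c h2
    have e3 := fl_ge h hn hθ c a h3
    have e4 : θ ^ 3 ≤ fl X a b * fl X b c * fl X c a := by
      calc θ ^ 3 = θ * θ * θ := by ring
        _ ≤ fl X a b * fl X b c * fl X c a := by
          apply mul_le_mul (mul_le_mul e1 e2 hθ.le (fl_nn h a b)) e3 hθ.le
          exact mul_nonneg (fl_nn h a b) (fl_nn h b c)
    have e5 : 27 * X a b c ≤ 27 * L / n := by
      have := h.ub a b c
      calc 27 * X a b c ≤ 27 * (L / n) := by linarith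
        _ = 27 * L / n := by ring
    unfold wt
    calc 27 * X a b c / (fl X a b * fl X b c * fl X c a) ≤ (27 * L / n) / θ ^ 3 :=
          div_le_div₀ (by positivity) e5 (by positivity) e4
      _ = 27 * L / θ ^ 3 / n := by ring

private theorem rat {S η δ : ℝ} (hη : 0 < η) (h2 : 2 * η ≤ δ) (h : |S - 1| ≤ η) :
    1 - δ ≤ S / (1 + η) ∧ S / (1 + η) ≤ 1 := by
  rw [abs_le] at h
  constructor
  · rw [le_div_iff₀ (by linarith)]
    nlinarith
  · rw [div_le_one (by linarith)]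
    linarith

end

/-- Module NAP. -/
theorem hNAP : StNAP := by
  intro hN hR L θ g hL hθ hθ1 hg
  have hΛ : 0 < 27 * L / θ ^ 3 := by positivity
  obtain ⟨δ, n1, hδ, hNIB⟩ := hN (27 * L / θ ^ 3) g hΛ hg
  obtain ⟨η, hηd⟩ : ∃ η : ℝ, η = min (δ / 2) (min g 1) := ⟨_, rfl⟩
  have hη : 0 < η := by
    rw [hηd]
    exact lt_min (by linarith) (lt_min hg one_pos)
  have hη2 : 2 * η ≤ δ := by
    have : η ≤ δ / 2 := by
      rw [hηd]
      exact min_le_left _ _
    linarith
  have hηg : η ≤ g := by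
    rw [hηd]
    exact (min_le_right _ _).trans (min_le_left _ _)
  have hη1 : η ≤ 1 := by
    rw [hηd]
    exact (min_le_right _ _).trans (min_le_right _ _)
  obtain ⟨n2, hRT⟩ := hR L θ η hL hθ hθ1 hη hη1
  refine ⟨max (max n1 n2) 3, fun n hn s X hs hX => ?_⟩
  have hn1 : n1 ≤ n := (le_max_left _ _).trans ((le_max_left _ _).trans hn)
  have hn2 : n2 ≤ n := (le_max_right _ _).trans ((le_max_left _ _).trans hn)
  have hn3 : 3 ≤ n := (le_max_right _ _).trans hn
  obtain ⟨A, B, C, hT⟩ := hRT n hn2 s X hs hX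
  have h1η : (0 : ℝ) < 1 + η := by linarith
  obtain ⟨x, hx⟩ : ∃ x : Fin n → Fin n → Fin n → ℝ, ∀ a b c, x a b c =
      if (a, b) ∈ A ∧ (b, c) ∈ B ∧ (c, a) ∈ C then wt X a b c / (1 + η) else 0 :=
    ⟨fun a b c => if (a, b) ∈ A ∧ (b, c) ∈ B ∧ (c, a) ∈ C then wt X a b c / (1 + η) else 0,
      fun _ _ _ => rfl⟩
  have x0 : ∀ a b c, 0 ≤ x a b c := by
    intro a b c
    rw [hx]
    split_ifs
    · exact div_nonneg (wt_nn hX a b c) h1η.le
    · exact le_rfl
  have x1 : ∀ a b c, x a b c ≤ 27 * L / θ ^ 3 / n := by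
    intro a b c
    rw [hx]
    split_ifs
    · exact (div_le_self (wt_nn hX a b c) (by linarith)).trans (wt_le hX hn3 hθ hL a b c)
    · positivity
  have x2 : ∀ a b c, x a b c ≠ 0 → (a, b) ∈ A ∧ (b, c) ∈ B ∧ (c, a) ∈ C := by
    intro a b c h
    rw [hx] at h
    by_contra h'
    rw [if_neg h'] at h
    exact h rfl
  -- sums
  have sA : ∀ a b, (a, b) ∈ A → ∑ c, x a b c =
      (∑ c, if (b, c) ∈ B ∧ (c, a) ∈ C then wt X a b c else 0) / (1 + η) := by
    intro a b h
    rw [Finset.sum_div]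
    refine Finset.sum_congr rfl fun c _ => ?_
    rw [hx]
    by_cases h' : (b, c) ∈ B ∧ (c, a) ∈ C
    · rw [if_pos ⟨h, h'⟩, if_pos h']
    · rw [if_neg (fun h'' => h' h''.2), if_neg h', zero_div]
  have sB : ∀ b c, (b, c) ∈ B → ∑ a, x a b c =
      (∑ a, if (a, b) ∈ A ∧ (c, a) ∈ C then wt X a b c else 0) / (1 + η) := by
    intro b c h
    rw [Finset.sum_div]
    refine Finset.sum_congr rfl fun a _ => ?_
    rw [hx]
    by_cases h' : (a, b) ∈ A ∧ (c, a) ∈ C
    · rw [if_pos ⟨h'.1, h, h'.2⟩, if_pos h']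
    · rw [if_neg (fun h'' => h' ⟨h''.1, h''.2.2⟩), if_neg h', zero_div]
  have sC : ∀ c a, (c, a) ∈ C → ∑ b, x a b c =
      (∑ b, if (a, b) ∈ A ∧ (b, c) ∈ B then wt X a b c else 0) / (1 + η) := by
    intro c a h
    rw [Finset.sum_div]
    refine Finset.sum_congr rfl fun b _ => ?_
    rw [hx]
    by_cases h' : (a, b) ∈ A ∧ (b, c) ∈ B
    · rw [if_pos ⟨h'.1, h'.2, h⟩, if_pos h']
    · rw [if_neg (fun h'' => h' ⟨h''.1, h''.2.1⟩), if_neg h', zero_div]
  have nA : ∀ a b, (a, b) ∈ A → a ≠ b := by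
    rintro a b h rfl
    exact hT.dA a h
  have nB : ∀ b c, (b, c) ∈ B → b ≠ c := by
    rintro b c h rfl
    exact hT.dB b h
  have nC : ∀ c a, (c, a) ∈ C → c ≠ a := by
    rintro c a h rfl
    exact hT.dC c h
  have rA := fun a b (h : (a, b) ∈ A) => rat hη hη2 (hT.sA a b (nA a b h))
  have rB := fun b c (h : (b, c) ∈ B) => rat hη hη2 (hT.sB b c (nB b c h))
  have rC := fun c a (h : (c, a) ∈ C) => rat hη hη2 (hT.sC c a (nC c a h))
  obtain ⟨P, hP, pA, pB, pC⟩ := hNIB (Fin n) (Fin n) (Fin n) n hn1 (Fintype.card_fin n)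
    (Fintype.card_fin n) (Fintype.card_fin n) A B C x x0 x1 x2
    (fun a b h => by rw [sA a b h]; exact (rA a b h).1)
    (fun a b => by
      by_cases h : (a, b) ∈ A
      · rw [sA a b h]
        exact (rA a b h).2
      · rw [Finset.sum_eq_zero fun c _ => by rw [hx, if_neg fun h' => h h'.1]]
        exact zero_le_one)
    (fun b c h => by rw [sB b c h]; exact (rB b c h).1)
    (fun b c => by
      by_cases h : (b, c) ∈ B
      · rw [sB b c h]
        exact (rB b c h).2
      · rw [Finset.sum_eq_zero fun a _ => by rw [hx, if_neg fun h' => h h'.2.1]]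
        exact zero_le_one)
    (fun c a h => by rw [sC c a h]; exact (rC c a h).1)
    (fun c a => by
      by_cases h : (c, a) ∈ C
      · rw [sC c a h]
        exact (rC c a h).2
      · rw [Finset.sum_eq_zero fun b _ => by rw [hx, if_neg fun h' => h h'.2.2]]
        exact zero_le_one)
  refine ⟨A, B, C, P, hT.dA, hT.dB, hT.dC, hT.net, ?_, hP, pA, pB, pC⟩
  have h1 := hT.card
  have h2 : η * (n : ℝ) ^ 2 ≤ g * (n : ℝ) ^ 2 := mul_le_mul_of_nonneg_right hηg (sq_nonneg _)
  linarith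

end Pool.Agent.Helper86.SY
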